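import Mathlib
import Pool.Agent.Results.MP_296adc_co.OneThree

/-!
# Planar graphs without odd wheels that are not {1,3}-choosable: all large orders, critical examples

The starting library has one planar graph without odd wheels that is not `{1,3}`-choosable. We show that
its disjoint union with every finite planar graph without odd wheels is again such a graph, that there
are such graphs of every large order, and that there is one all of whose proper induced subgraphs are
`{1,3}`-choosable.
-/

set_option autoImplicit false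

open Helper183 Set

namespace Pool.Agent.Results.MP_296adc_co.CriticalAndLarge

/-- Restriction of a drawing to an induced subgraph. -/
lemma drawable_comap {V W : Type} {G : SimpleGraph V} (e : W ↪ V) (h : PlaneDrawable G) :
    PlaneDrawable (G.comap e) := by
  obtain ⟨f, γ, hf, h1, h2⟩ := h
  refine ⟨fun w => f (e w), fun u v => γ (e u) (e v), fun a b hab => e.injective (hf hab), ?_, ?_⟩
  · intro u v huv
    obtain ⟨a, b, c, d, k⟩ := h1 (e u) (e v) huv
    exact ⟨a, b, c, d, fun z t ht => k (e z) t ht⟩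
  · intro u v w x huv hwx hne t ht r hr
    refine h2 (e u) (e v) (e w) (e x) huv hwx ?_ t ht r hr
    intro hs
    apply hne
    rw [Sym2.eq_iff] at hs ⊢
    rcases hs with ⟨p, q⟩ | ⟨p, q⟩
    · exact Or.inl ⟨e.injective p, e.injective q⟩
    · exact Or.inr ⟨e.injective p, e.injective q⟩

lemma wheel_comap {V W : Type} {G : SimpleGraph V} (e : W ↪ V) (h : HasOddWheel (G.comap e)) :
    HasOddWheel G := by
  obtain ⟨k, hk, ho, c, g, hg, hc, h1, h2⟩ := h
  exact ⟨k, hk, ho, e c, fun i => e (g i), fun a b hab => hg (e.injective hab),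
    fun i hi => hc i (e.injective hi), h1, h2⟩

/-- The first coordinates of the points of a drawing of a finite graph are bounded. -/
lemma bounded_drawing {V : Type} [Finite V] {G : SimpleGraph V} (f : V → ℝ × ℝ)
    (γ : V → V → ℝ → ℝ × ℝ)
    (h1 : ∀ u v : V, G.Adj u v → ContinuousOn (γ u v) (Icc (0:ℝ) 1)) :
    ∃ R : ℝ, (∀ v, |(f v).1| ≤ R) ∧ ∀ u v, G.Adj u v → ∀ t ∈ Icc (0:ℝ) 1, |(γ u v t).1| ≤ R := by
  classical
  have hb : ∀ p : V × V, ∃ B : ℝ, G.Adj p.1 p.2 → ∀ t ∈ Icc (0:ℝ) 1, |(γ p.1 p.2 t).1| ≤ B := by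
    intro p
    by_cases hp : G.Adj p.1 p.2
    · have hc : ContinuousOn (fun t => (γ p.1 p.2 t).1) (Icc (0:ℝ) 1) :=
        continuous_fst.comp_continuousOn (h1 _ _ hp)
      obtain ⟨B, hB⟩ := isCompact_Icc.exists_bound_of_continuousOn hc
      exact ⟨B, fun _ t ht => by simpa [Real.norm_eq_abs] using hB t ht⟩
    · exact ⟨0, fun h => absurd h hp⟩
  choose B hB using hb
  obtain ⟨R1, hR1⟩ := (Set.finite_range B).bddAbove
  obtain ⟨R2, hR2⟩ := (Set.finite_range (fun v => |(f v).1|)).bddAbove
  refine ⟨max R1 R2, fun v => le_max_of_le_right (hR2 ⟨v, rfl⟩), fun u v huv t ht => ?_⟩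
  exact le_max_of_le_left ((hB (u, v) huv t ht).trans (hR1 ⟨(u, v), rfl⟩))

/-- Disjoint unions of drawable finite graphs are drawable. -/
lemma drawable_sum {V W : Type} [Finite V] [Finite W] {G : SimpleGraph V} {H : SimpleGraph W}
    (hG : PlaneDrawable G) (hH : PlaneDrawable H) : PlaneDrawable (G ⊕g H) := by
  obtain ⟨f, γ, hf, h1, h2⟩ := hG
  obtain ⟨f', γ', hf', h1', h2'⟩ := hH
  obtain ⟨R, hR, hRγ⟩ := bounded_drawing f γ (fun u v h => (h1 u v h).1)
  obtain ⟨R', hR', hRγ'⟩ := bounded_drawing f' γ' (fun u v h => (h1' u v h).1)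
  have key : ∀ p q : ℝ × ℝ, |p.1| ≤ R → |q.1| ≤ R' → p ≠ q + (R + R' + 1, 0) := by
    intro p q hp hq h
    have h3 := congrArg Prod.fst h
    simp only [Prod.fst_add] at h3
    have := abs_le.1 hp
    have := abs_le.1 hq
    linarith [this.1, (abs_le.1 hp).2]
  refine ⟨Sum.elim f (fun w => f' w + (R + R' + 1, 0)), fun a b => match a, b with
    | Sum.inl u, Sum.inl v => γ u v
    | Sum.inr u, Sum.inr v => fun t => γ' u v t + (R + R' + 1, 0)
    | _, _ => fun _ => 0, ?_, ?_, ?_⟩
  · rintro (a | a) (b | b) hab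
    · exact congrArg _ (hf hab)
    · exact absurd hab (key _ _ (hR a) (hR' b))
    · exact absurd hab.symm (key _ _ (hR b) (hR' a))
    · exact congrArg _ (hf' (add_right_cancel hab))
  · rintro (u | u) (v | v) huv
    · have huv' : G.Adj u v := huv
      obtain ⟨a, b, c, d, k⟩ := h1 u v huv'
      refine ⟨a, b, c, d, ?_⟩
      rintro (z | z) t ht
      · exact k z t ht
      · exact key _ _ (hRγ u v huv' t (Ioo_subset_Icc_self ht)) (hR' z)
    · exact absurd huv (by simp)
    · exact absurd huv (by simp)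
    · have huv' : H.Adj u v := huv
      obtain ⟨a, b, c, d, k⟩ := h1' u v huv'
      refine ⟨a.add continuousOn_const, fun x hx y hy hxy => b hx hy (add_right_cancel hxy),
        ?_, ?_, ?_⟩
      · show γ' u v 0 + _ = f' u + _
        rw [c]
      · show γ' u v 1 + _ = f' v + _
        rw [d]
      · rintro (z | z) t ht hz
        · exact key _ _ (hR z) (hRγ' u v huv' t (Ioo_subset_Icc_self ht)) hz.symm
        · exact k z t ht (add_right_cancel hz)
  · rintro (u | u) (v | v) (w | w) (x | x) huv hwx hne t ht r hr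
    all_goals first
      | (exfalso; simp at huv; done)
      | (exfalso; simp at hwx; done)
      | skip
    · refine h2 u v w x huv hwx ?_ t ht r hr
      intro hs
      apply hne
      rw [Sym2.eq_iff] at hs ⊢
      rcases hs with ⟨p, q⟩ | ⟨p, q⟩
      · exact Or.inl ⟨congrArg _ p, congrArg _ q⟩
      · exact Or.inr ⟨congrArg _ p, congrArg _ q⟩
    · exact key _ _ (hRγ u v huv t (Ioo_subset_Icc_self ht)) (hRγ' w x hwx r hr)
    · exact (key _ _ (hRγ w x hwx r hr) (hRγ' u v huv t (Ioo_subset_Icc_self ht))).symm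
    · intro hs
      refine h2' u v w x huv hwx ?_ t ht r hr (add_right_cancel hs)
      intro hs
      apply hne
      rw [Sym2.eq_iff] at hs ⊢
      rcases hs with ⟨p, q⟩ | ⟨p, q⟩
      · exact Or.inl ⟨congrArg _ p, congrArg _ q⟩
      · exact Or.inr ⟨congrArg _ p, congrArg _ q⟩

lemma wheel_sum {V W : Type} {G : SimpleGraph V} {H : SimpleGraph W}
    (hG : ¬ HasOddWheel G) (hH : ¬ HasOddWheel H) : ¬ HasOddWheel (G ⊕g H) := by
  rintro ⟨k, hk, ho, (c | c), g, hg, hc, h1, h2⟩
  · have h3 : ∀ i, ∃ v, g i = Sum.inl v := by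
      intro i
      have h4 := h2 i
      rcases hgi : g i with v | v
      · exact ⟨v, rfl⟩
      · rw [hgi] at h4
        exact absurd h4 (by simp)
    choose v hv using h3
    refine hG ⟨k, hk, ho, c, v, fun a b hab => hg (by rw [hv, hv, hab]), fun i hi => hc i ?_, ?_, ?_⟩
    · rw [hv, hi]
    · intro i
      have h4 := h1 i
      rw [hv, hv] at h4
      exact h4
    · intro i
      have h4 := h2 i
      rw [hv] at h4
      exact h4
  · have h3 : ∀ i, ∃ v, g i = Sum.inr v := by
      intro i
      have h4 := h2 i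
      rcases hgi : g i with v | v
      · rw [hgi] at h4
        exact absurd h4 (by simp)
      · exact ⟨v, rfl⟩
    choose v hv using h3
    refine hH ⟨k, hk, ho, c, v, fun a b hab => hg (by rw [hv, hv, hab]), fun i hi => hc i ?_, ?_, ?_⟩
    · rw [hv, hi]
    · intro i
      have h4 := h1 i
      rw [hv, hv] at h4
      exact h4
    · intro i
      have h4 := h2 i
      rw [hv] at h4
      exact h4

lemma choosable_of_sum {V W : Type} {G : SimpleGraph V} {H : SimpleGraph W} (ks : List ℕ)
    (h : LambdaChoosable ks (G ⊕g H)) : LambdaChoosable ks G := by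
  intro L hL
  rcases isEmpty_or_nonempty V with hV | ⟨⟨v0⟩⟩
  · exact ⟨fun v => 0, fun v => (hV.false v).elim, fun v => (hV.false v).elim⟩
  · obtain ⟨h1, C, h2, h3, h4⟩ := hL
    obtain ⟨φ, hφ, hφ2⟩ := h (Sum.elim L (fun _ => L v0)) ⟨by
        rintro (v | v)
        · exact h1 v
        · exact h1 v0, C, h2, by
        rintro (v | v) c hc
        · exact h3 v c hc
        · exact h3 v0 c hc, by
        rintro (v | v) i
        · exact h4 v i
        · exact h4 v0 i⟩
    exact ⟨fun v => φ (Sum.inl v), fun v => hφ (Sum.inl v), fun u v huv => hφ2 _ _ huv⟩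

lemma choosable_iso {V W : Type} {G : SimpleGraph V} (e : W ≃ V) (ks : List ℕ)
    (h : LambdaChoosable ks (G.comap e)) : LambdaChoosable ks G := by
  intro L hL
  obtain ⟨h1, C, h2, h3, h4⟩ := hL
  obtain ⟨φ, hφ, hφ2⟩ := h (fun w => L (e w)) ⟨fun w => h1 (e w), C, h2, fun w => h3 (e w),
    fun w => h4 (e w)⟩
  refine ⟨fun v => φ (e.symm v), fun v => ?_, fun u v huv => ?_⟩
  · have := hφ (e.symm v)
    simpa using this
  · exact hφ2 _ _ (by simpa [SimpleGraph.comap_adj] using huv)

/-- A planar graph with no odd wheel that is not `{1,3}`-choosable. -/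
def IsExample {V : Type} (G : SimpleGraph V) : Prop :=
  PlaneDrawable G ∧ ¬ HasOddWheel G ∧ ¬ LambdaChoosable [1, 3] G

lemma example_sum {V W : Type} [Finite V] [Finite W] {G : SimpleGraph V} {H : SimpleGraph W}
    (hG : IsExample G) (hH : PlaneDrawable H) (hH2 : ¬ HasOddWheel H) : IsExample (G ⊕g H) :=
  ⟨drawable_sum hG.1 hH, wheel_sum hG.2.1 hH2, fun h => hG.2.2 (choosable_of_sum _ h)⟩

lemma example_bot (m : ℕ) : PlaneDrawable (⊥ : SimpleGraph (Fin m)) ∧
    ¬ HasOddWheel (⊥ : SimpleGraph (Fin m)) := by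
  constructor
  · refine ⟨fun i => ((((i : ℕ) : ℝ)), (0 : ℝ)), fun _ _ _ => 0, ?_, ?_, ?_⟩
    · intro a b hab
      have := congrArg Prod.fst hab
      simp only [Nat.cast_inj] at this
      exact Fin.ext this
    · intro u v h
      exact absurd h (by simp)
    · intro u v w x h
      exact absurd h (by simp)
  · rintro ⟨k, _, _, c, g, _, _, h1, _⟩
    exact absurd (h1 0) (by simp)

/-- (1) There is a finite planar graph `G` without odd wheels whose disjoint union with every finite
planar graph without odd wheels is a planar graph without odd wheels that is not `{1,3}`-choosable.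
(2) Such graphs exist for every large number of vertices. (3) There is one all of whose proper induced
subgraphs are `{1,3}`-choosable. -/
theorem result :
    (∃ (n : ℕ) (G : SimpleGraph (Fin n)), IsExample G ∧
      ∀ (W : Type) [Finite W] (H : SimpleGraph W), PlaneDrawable H → ¬ HasOddWheel H →
        IsExample (G ⊕g H)) ∧
    (∃ N : ℕ, ∀ n ≥ N, ∃ G : SimpleGraph (Fin n), IsExample G) ∧
    (∃ (n : ℕ) (G : SimpleGraph (Fin n)), IsExample G ∧
      ∀ (m : ℕ) (e : Fin m ↪ Fin n), m < n → LambdaChoosable [1, 3] (G.comap e)) := by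
  obtain ⟨N, G, hG⟩ := OneThree.result
  have hG : IsExample G := hG
  refine ⟨⟨N, G, hG, fun W _ H hH hH2 => example_sum hG hH hH2⟩, ⟨N, fun n hn => ?_⟩, ?_⟩
  · obtain ⟨m, rfl⟩ := Nat.exists_eq_add_of_le hn
    have h := example_sum hG (example_bot m).1 (example_bot m).2
    refine ⟨(G ⊕g (⊥ : SimpleGraph (Fin m))).comap (finSumFinEquiv (m := N) (n := m)).symm.toEmbedding,
      drawable_comap _ h.1, fun hw => h.2.1 (wheel_comap _ hw), fun hc => h.2.2 ?_⟩
    exact choosable_iso (finSumFinEquiv (m := N) (n := m)).symm _ hc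
  · classical
    have hex : ∃ n : ℕ, ∃ G : SimpleGraph (Fin n), IsExample G := ⟨N, G, hG⟩
    obtain ⟨G', hG'⟩ := Nat.find_spec hex
    refine ⟨Nat.find hex, G', hG', fun m e hm => ?_⟩
    by_contra hc
    exact Nat.find_min hex hm ⟨G'.comap e, drawable_comap e hG'.1,
      fun hw => hG'.2.1 (wheel_comap e hw), hc⟩

end Pool.Agent.Results.MP_296adc_co.CriticalAndLarge
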